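import Pool.Agent.Q150.LK.CR2LB
import Pool.Agent.Q7.LS.Stm

/-!
# Project LS (helper7), job CLB

The condition at the places `v ∈ T`, `d` not a local `p`-th power (adapted from `Pool/Agent/Q150/LK/CR2LB.lean` of
helper150).
-/

set_option autoImplicit false

namespace Pool.Agent.Q124.LS

open NumberField IsDedekindDomain Finset
open Pool.Agent.Q7.LK
open Pool.Agent.Q7.LS
open Pool.Agent.Q150.LK

section

variable {p : ℕ} [Fact p.Prime] {E : Type} [Field E] [NumberField E]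

/-- comparison of the valuation and the norm -/
theorem val_le_one {P : HeightOneSpectrum (𝓞 E)} {τ : E →+* PadicAlgCl p} (hτ : P.asIdeal = PI τ)
    {x : E} (hx : P.valuation E x ≤ 1) : ‖τ x‖ ≤ 1 := by
  obtain ⟨a, s, has⟩ := HeightOneSpectrum.exists_primeCompl_mul_eq_of_integer P x hx
  have hs : (s : 𝓞 E) ∉ P.asIdeal := s.2
  have hs1 : ‖τ (((s : 𝓞 E)) : E)‖ = 1 := by
    refine le_antisymm (norm_int_le τ _) (not_lt.1 fun h => hs ?_)
    exact hτ.ge h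
  have h2 := congrArg (fun z => ‖τ z‖) has
  simp only [map_mul, norm_mul] at h2
  have h3 : ‖τ (algebraMap (𝓞 E) E a)‖ ≤ 1 := norm_int_le τ a
  have h4 : ‖τ (algebraMap (𝓞 E) E (s : 𝓞 E))‖ = 1 := hs1
  rw [h4] at h2
  linarith

variable {F L : Type} [Field F] [NumberField F] [Field L] [NumberField L] [Algebra F L]

/-- the numbers congruent to `1` modulo `p ^ N` above `v` are close to `1` -/
theorem close_of_Nr {v : HeightOneSpectrum (𝓞 F)} {τ0 : F →+* PadicAlgCl p} (hτ0 : v.asIdeal = PI τ0)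
    {τ : L →+* PadicAlgCl p} (hτ : ∀ x : F, τ (algebraMap F L x) = τ0 x) {N : ℕ} {x : L}
    (hx : Nr p ({v} : Set (HeightOneSpectrum (𝓞 F))) N x) : ‖τ (x - 1)‖ ≤ ‖(p : PadicAlgCl p)‖ ^ N := by
  have hp0 : (p : L) ≠ 0 := by exact_mod_cast (Fact.out : p.Prime).ne_zero
  have hne : PI τ ≠ ⊥ := by
    intro h
    have h1 : ((p : ℕ) : 𝓞 L) ∈ PI τ := by
      rw [mem_PI]
      have h2 : τ (((p : ℕ) : 𝓞 L) : L) = (p : PadicAlgCl p) := by
        have h3 : (((p : ℕ) : 𝓞 L) : L) = (p : L) := by push_cast; rfl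
        rw [h3, map_natCast]
      rw [h2]
      exact norm_p_lt
    rw [h, Ideal.mem_bot] at h1
    exact (Fact.out : p.Prime).ne_zero (by exact_mod_cast h1)
  let P : HeightOneSpectrum (𝓞 L) := ⟨PI τ, PI_prime τ, hne⟩
  have hP : Pool.Agent.Q7.LS.Ab v P := by
    unfold Pool.Agent.Q7.LS.Ab
    rw [Ideal.map_le_iff_le_comap]
    intro a ha
    rw [hτ0, mem_PI] at ha
    change algebraMap (𝓞 F) (𝓞 L) a ∈ PI τ
    rw [mem_PI]
    have e : ((algebraMap (𝓞 F) (𝓞 L) a : 𝓞 L) : L) = algebraMap F L (a : F) := rfl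
    rw [e, hτ]
    exact ha
  have h1 := hx v rfl P hP
  have h3 : P.valuation L ((p : L) ^ N) ≠ 0 := (Valuation.ne_zero_iff _).2 (pow_ne_zero N hp0)
  have h4 : P.valuation L ((x - 1) / (p : L) ^ N) ≤ 1 := by
    rw [map_div₀]
    exact (div_le_one₀ (zero_lt_iff.2 h3)).2 h1
  have h5 := val_le_one (P := P) (τ := τ) rfl h4
  rw [map_div₀, norm_div, map_pow, map_natCast, norm_pow, div_le_one (pow_pos norm_p_pos N)] at h5
  exact h5

end

/-- JOB CLB. -/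
theorem clb : S_BAS → S_CLB := by
  intro hB p _ hp2 F L _ _ _ _ _ ζ d hζ hK hd σ hσ v hpv w M _ H y hy0 hy hnd
  have hp : p.Prime := Fact.out
  have hNp : NeZero p := ⟨hp.ne_zero⟩
  obtain ⟨ρ, a, hS⟩ := exists_str hζ hK hd σ hσ
  have hd0 := d_ne hd
  obtain ⟨-, hB2, hB3, -, -, -, -⟩ := hB p F v
  obtain ⟨τ0, hτ0⟩ := exists_emb v hpv
  obtain ⟨τ, hτ⟩ := ext_emb (L := L) τ0
  have hgal := hS.gal
  -- the automorphism of the algebraic closure
  have hτρ : τ ρ ∉ IntermediateField.adjoin ℚ_[p] (Set.range τ0) := by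
    intro hmem
    apply hnd
    have hρ0 : τ ρ ≠ 0 := (map_ne_zero τ).2 hS.ne
    have hpos : 0 < ‖τ ρ‖ := norm_pos_iff.2 hρ0
    obtain ⟨x, hx⟩ := mem_adjoin_close τ0 hmem
      (ε := ‖τ ρ‖ * ‖(p : PadicAlgCl p)‖ ^ 3) (mul_pos hpos (pow_pos norm_p_pos 3))
    have hp3 : ‖(p : PadicAlgCl p)‖ ^ 3 < 1 := pow_lt_one₀ (norm_nonneg _) norm_p_lt (by norm_num)
    have hx' : ‖τ0 x - τ ρ‖ < ‖τ ρ‖ * ‖(p : PadicAlgCl p)‖ ^ 3 := by
      rw [norm_sub_rev]; exact hx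
    have hxn : ‖τ0 x‖ = ‖τ ρ‖ := norm_eq_of_sub_lt (hx'.trans (by nlinarith))
    have hx0 : τ0 x ≠ 0 := by
      rw [← norm_pos_iff, hxn]; exact hpos
    apply lpw_of_close hB hτ0 (x := x⁻¹)
    have e : τ0 (d * x⁻¹ ^ p) = (τ ρ / τ0 x) ^ p := by
      rw [div_pow, ← map_pow τ, hS.pow, hτ, map_mul, map_pow, map_inv₀, inv_pow]
      rfl
    rw [e]
    have h1 : ‖τ ρ / τ0 x - 1‖ < ‖(p : PadicAlgCl p)‖ ^ 3 := by
      rw [div_sub_one hx0, norm_div, hxn, div_lt_iff₀ hpos, mul_comm]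
      exact hx
    have h2 : ‖τ ρ / τ0 x‖ ≤ 1 := by
      rw [norm_div, hxn, div_self hpos.ne']
    have h3 := prod_close (range p) (fun _ => τ ρ / τ0 x) (fun _ => 1)
      (pow_nonneg (norm_nonneg (p : PadicAlgCl p)) 3)
      (fun _ _ => h2) (fun _ _ => norm_one.le) (fun _ _ => h1.le)
    rw [Finset.prod_const, Finset.prod_const_one, Finset.card_range] at h3
    refine h3.trans_lt ?_
    exact pow_lt_pow_right_of_lt_one₀ norm_p_pos norm_p_lt (by norm_num)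
  obtain ⟨g0, hg0, hg0ρ⟩ := exists_aut _ hτρ
  have hg0F : ∀ x : F, g0 (τ0 x) = τ0 x := fun x =>
    hg0 _ (IntermediateField.subset_adjoin _ _ ⟨x, rfl⟩)
  have hζΩ : IsPrimitiveRoot (τ0 ζ) p := hζ.map_of_injective τ0.injective
  have hζ'Ω : IsPrimitiveRoot (τ0 (ζ ^ a)) p := hS.prim.map_of_injective τ0.injective
  have hρ0 : τ ρ ≠ 0 := (map_ne_zero τ).2 hS.ne
  obtain ⟨b, -, hb⟩ := hζΩ.eq_pow_of_pow_eq_one (ξ := g0 (τ ρ) / τ ρ) (by
    rw [div_pow, ← map_pow, ← map_pow, hS.pow, hτ, hg0F, div_self ((map_ne_zero τ0).2 hd0)])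
  have hg0ρ' : g0 (τ ρ) = τ0 (ζ ^ b) * τ ρ := by
    rw [map_pow, hb, div_mul_cancel₀ _ hρ0]
  have hbprim : IsPrimitiveRoot (τ0 (ζ ^ b)) p := by
    rw [map_pow]
    refine hζΩ.pow_of_coprime b ?_
    rw [Nat.coprime_comm, hp.coprime_iff_not_dvd]
    intro h
    apply hg0ρ
    rw [hg0ρ', map_pow, (hζΩ.pow_eq_one_iff_dvd b).2 h, one_mul]
  obtain ⟨k, -, hk⟩ := hbprim.eq_pow_of_pow_eq_one hζ'Ω.pow_eq_one
  have hg0k : ∀ j : ℕ, (g0 ^ j) (τ ρ) = (τ0 (ζ ^ b)) ^ j * τ ρ := by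
    intro j
    induction j with
    | zero => simp
    | succ j ih =>
      rw [pow_succ', AlgEquiv.mul_apply, ih, map_mul, map_pow, hg0F, hg0ρ', ← mul_assoc,
        ← pow_succ]
  obtain ⟨g, hg⟩ : ∃ g : PadicAlgCl p ≃ₐ[ℚ_[p]] PadicAlgCl p, g = g0 ^ k := ⟨_, rfl⟩
  have hgF : ∀ x : F, g (τ0 x) = τ0 x := by
    intro x
    rw [hg]
    clear hk hg
    induction k with
    | zero => simp
    | succ k ih => rw [pow_succ', AlgEquiv.mul_apply, ih, hg0F]
  have hgρ : g (τ ρ) = τ (σ ρ) := by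
    rw [hg, hg0k, hk, hS.act, map_mul, hτ]
  have hgτ : ∀ x : L, g (τ x) = τ (σ x) := by
    have h1 : (g : PadicAlgCl p →+* PadicAlgCl p).comp τ = τ.comp (σ : L →+* L) := by
      refine hom_ext hK hd hS.pow _ _ (fun x => ?_) hgρ
      change g (τ (algebraMap F L x)) = τ (σ (algebraMap F L x))
      rw [hτ, hgF, σ.commutes, hτ]
    exact fun x => DFunLike.congr_fun h1 x
  have hgi : ∀ (i : ℕ) (x : L), (g ^ i) (τ x) = τ ((σ ^ i) x) := by
    intro i x
    induction i with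
    | zero => rfl
    | succ i ih => rw [pow_succ', AlgEquiv.mul_apply, ih, hgτ, pow_succ', AlgEquiv.mul_apply]
  -- the precision
  obtain ⟨ε, hε⟩ : ∃ ε : ℝ, ε = ‖(p : PadicAlgCl p)‖ ^ (M + 4) := ⟨_, rfl⟩
  have hp0 := norm_p_pos (p := p)
  have hp1 := norm_p_lt (p := p)
  have hε0 : 0 < ε := by rw [hε]; exact pow_pos hp0 _
  have hn0 : 0 < p ^ M := pow_pos hp.pos _
  obtain ⟨N, hN⟩ := exists_pow_lt_of_lt_one (pow_pos hε0 (p ^ M)) hp1
  obtain ⟨η, hη1, -, hη2⟩ := H N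
  set W : L := (w : L) with hW
  set E : L := (η : L) with hE
  have hη3 := (close_of_Nr hτ0 hτ hη2).trans hN.le
  have e2 : (((w * η ^ p) ^ p ^ M : Lˣ) : L) = (W * E ^ p) ^ p ^ M := by
    rw [hW, hE]
    push_cast
    rfl
  rw [e2, map_sub, map_one, map_pow] at hη3
  obtain ⟨ξ, hξ, hξc⟩ := close_root hn0 _ hε0.le hη3
  have hξn : ‖ξ‖ = 1 := by
    have h1 : ‖ξ‖ ^ p ^ M = 1 := by rw [← norm_pow, hξ, norm_one]
    exact (pow_eq_one_iff_of_nonneg (norm_nonneg _) hn0.ne').1 h1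
  have hε1 : ε < 1 := by rw [hε]; exact pow_lt_one₀ (norm_nonneg _) hp1 (by omega)
  have hun : ‖τ (W * E ^ p)‖ = 1 := by
    rw [← hξn]
    exact norm_eq_of_sub_lt (by rw [hξn]; exact hξc.trans_lt hε1)
  -- norms
  have hNw : Algebra.norm F W = 1 := by
    have h1 : Algebra.norm F (σ y) = Algebra.norm F y := Algebra.norm_eq_of_algEquiv σ y
    rw [← hy, map_mul] at h1
    have h2 : Algebra.norm F y ≠ 0 := Algebra.norm_ne_zero_iff.2 hy0
    exact mul_right_cancel₀ h2 (by rw [h1, one_mul])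
  have hprod : ∏ i ∈ range p, (g ^ i) ξ = 1 := by
    apply root_one (n := p ^ M)
    · rw [← Finset.prod_pow]
      refine Finset.prod_eq_one fun i _ => ?_
      rw [← map_pow, hξ, map_one]
    · have h1 : ∏ i ∈ range p, (g ^ i) (τ (W * E ^ p)) = 1 := by
        rw [Finset.prod_congr rfl fun i _ => hgi i _, ← map_prod, ← hS.norm, map_mul, map_pow, hNw,
          hη1, one_pow, mul_one, map_one, map_one]
      have h2 := prod_close (range p) (fun i => (g ^ i) ξ) (fun i => (g ^ i) (τ (W * E ^ p)))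
        hε0.le (fun i _ => by rw [norm_aut, hξn]) (fun i _ => by rw [norm_aut, hun])
        (fun i _ => by rw [← map_sub, norm_aut, norm_sub_rev]; exact hξc)
      rw [h1] at h2
      refine h2.trans_lt ?_
      rw [hε, Nat.cast_pow, norm_pow]
      exact pow_lt_pow_right_of_lt_one₀ hp0 hp1 (by omega)
  have hξp : ξ ^ p = 1 := root_pow_p hp2 g hζΩ (hgF ζ) hξ hprod
  obtain ⟨i, -, hi⟩ := hζ'Ω.eq_pow_of_pow_eq_one hξp
  -- Hilbert 90
  have hfd : FiniteDimensional F L := Module.Finite.of_restrictScalars_finite ℚ F L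
  have hcyc : IsCyclic (L ≃ₐ[F] L) := ⟨σ, hS.gen⟩
  obtain ⟨c, hc⟩ := groupCohomology.exists_div_of_norm_eq_one hS.gen (x := E⁻¹) (by
    rw [Algebra.norm_inv, hη1, inv_one])
  have hc0 : (c : L) ≠ 0 := c.ne_zero
  have hσc0 : σ (c : L) ≠ 0 := (map_ne_zero σ).2 hc0
  have hEc : E * (c : L) = σ (c : L) := by
    have hE0 : E ≠ 0 := by
      intro h0
      rw [h0, inv_zero, div_eq_zero_iff] at hc
      rcases hc with h | h
      · exact hc0 h
      · exact hσc0 h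
    rw [div_eq_iff hσc0] at hc
    conv_lhs => rw [hc]
    rw [← mul_assoc, mul_inv_cancel₀ hE0, one_mul]
  -- the element
  obtain ⟨Y, hY⟩ : ∃ Y : L, Y = y * (c : L) ^ p * (ρ⁻¹) ^ i := ⟨_, rfl⟩
  have hY0 : Y ≠ 0 := by
    rw [hY]
    exact mul_ne_zero (mul_ne_zero hy0 (pow_ne_zero _ hc0)) (pow_ne_zero _ (inv_ne_zero hS.ne))
  have hz0 : algebraMap F L (ζ ^ a) ≠ 0 := by
    rw [Ne, map_eq_zero]
    exact hS.prim.ne_zero hp.ne_zero
  have hσY : σ Y = (W * E ^ p * ((algebraMap F L (ζ ^ a))⁻¹) ^ i) * Y := by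
    rw [hY, map_mul, map_mul, map_pow, map_pow, map_inv₀, hS.act, ← hy, ← hEc, mul_inv, mul_pow,
      mul_pow]
    ring
  have hτ1 : ‖τ (W * E ^ p * ((algebraMap F L (ζ ^ a))⁻¹) ^ i) - 1‖ ≤ ε := by
    have h1 : τ (((algebraMap F L (ζ ^ a))⁻¹) ^ i) = ξ⁻¹ := by
      rw [map_pow, map_inv₀, hτ, inv_pow, hi]
    have hξ0 : ξ ≠ 0 := by
      rw [← norm_pos_iff, hξn]; exact one_pos
    rw [map_mul, h1]
    have e : τ (W * E ^ p) * ξ⁻¹ - 1 = (τ (W * E ^ p) - ξ) * ξ⁻¹ := by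
      field_simp
    rw [e, norm_mul, norm_inv, hξn, inv_one, mul_one]
    exact hξc
  obtain ⟨R, hR⟩ : ∃ R : L, R = W * E ^ p * ((algebraMap F L (ζ ^ a))⁻¹) ^ i := ⟨_, rfl⟩
  rw [← hR] at hσY hτ1
  have hA0 : τ Y ≠ 0 := (map_ne_zero τ).2 hY0
  have hrat : ∀ j : ℕ, ‖τ ((σ ^ j) Y) / τ Y - 1‖ ≤ ε := by
    intro j
    induction j with
    | zero =>
      rw [pow_zero, AlgEquiv.one_apply, div_self hA0, sub_self, norm_zero]
      exact hε0.le
    | succ j ih =>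
      have h1 : (σ ^ (j + 1)) Y = (σ ^ j) R * (σ ^ j) Y := by
        rw [pow_succ, AlgEquiv.mul_apply, hσY, map_mul]
      have h2 : ‖τ ((σ ^ j) R) - 1‖ ≤ ε := by
        rw [← hgi]
        have e : (g ^ j) (τ R) - 1 = (g ^ j) (τ R - 1) := by rw [map_sub, map_one]
        rw [e, norm_aut]
        exact hτ1
      have h3 : τ ((σ ^ (j + 1)) Y) / τ Y - 1 = τ ((σ ^ j) R) * (τ ((σ ^ j) Y) / τ Y - 1) +
          (τ ((σ ^ j) R) - 1) := by
        rw [h1, map_mul]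
        field_simp
        ring
      have h4 : ‖τ ((σ ^ j) R)‖ = 1 := by
        have h5 : ‖τ ((σ ^ j) R)‖ = ‖(1 : PadicAlgCl p)‖ := norm_eq_of_sub_lt (by
          rw [norm_one]; exact h2.trans_lt hε1)
        rw [h5, norm_one]
      rw [h3]
      refine (IsUltrametricDist.norm_add_le_max _ _).trans (max_le ?_ h2)
      rw [norm_mul, h4, one_mul]
      exact ih
  -- the trace
  obtain ⟨s, hs⟩ : ∃ s : PadicAlgCl p, s = ∑ j ∈ range p, τ ((σ ^ j) Y) / τ Y := ⟨_, rfl⟩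
  have hεp : ε < ‖(p : PadicAlgCl p)‖ := by
    rw [hε]
    have := pow_lt_pow_right_of_lt_one₀ hp0 hp1 (show 1 < M + 4 by omega)
    rwa [pow_one] at this
  have hs1 : ‖s - p‖ ≤ ε := by
    have h1 : s - p = ∑ j ∈ range p, (τ ((σ ^ j) Y) / τ Y - 1) := by
      rw [Finset.sum_sub_distrib, ← hs, Finset.sum_const, Finset.card_range, nsmul_eq_mul, mul_one]
    rw [h1]
    exact IsUltrametricDist.norm_sum_le_of_forall_le_of_nonneg hε0.le fun j _ => hrat j
  have hsn : ‖s‖ = ‖(p : PadicAlgCl p)‖ := norm_eq_of_sub_lt (hs1.trans_lt hεp)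
  have hs0 : s ≠ 0 := by
    rw [← norm_pos_iff, hsn]; exact hp0
  have htr : τ0 (Algebra.trace F L Y) = τ Y * s := by
    rw [← hτ, hS.trace, map_sum, hs, Finset.mul_sum]
    exact Finset.sum_congr rfl fun j _ => by rw [mul_div_cancel₀ _ hA0]
  have hnm : τ0 (Algebra.norm F Y) = τ Y ^ p * ∏ j ∈ range p, (τ ((σ ^ j) Y) / τ Y) := by
    rw [← hτ, hS.norm, map_prod, Finset.prod_div_distrib, Finset.prod_const, Finset.card_range]
    field_simp
  have hLY : Lpw p v (Algebra.norm F Y) := by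
    apply lpw_of_close hB hτ0 (x := (p : F) / Algebra.trace F L Y)
    have e : τ0 (Algebra.norm F Y * ((p : F) / Algebra.trace F L Y) ^ p) =
        ∏ j ∈ range p, (τ ((σ ^ j) Y) / τ Y * ((p : PadicAlgCl p) / s)) := by
      rw [map_mul, map_pow, map_div₀, map_natCast, htr, hnm, Finset.prod_mul_distrib,
        Finset.prod_const, Finset.card_range]
      generalize ∏ j ∈ range p, (τ ((σ ^ j) Y) / τ Y) = Q
      rw [div_pow, div_pow, mul_pow]
      field_simp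
    rw [e]
    have h1 : ‖(p : PadicAlgCl p) / s - 1‖ ≤ ε / ‖(p : PadicAlgCl p)‖ := by
      rw [div_sub_one hs0, norm_div, hsn, norm_sub_rev]
      exact div_le_div_of_nonneg_right hs1 hp0.le
    have hεε : ε / ‖(p : PadicAlgCl p)‖ < ‖(p : PadicAlgCl p)‖ ^ 2 := by
      rw [div_lt_iff₀ hp0, hε, ← pow_succ]
      exact pow_lt_pow_right_of_lt_one₀ hp0 hp1 (by omega)
    have hε' : ε ≤ ε / ‖(p : PadicAlgCl p)‖ := by
      rw [le_div_iff₀ hp0]
      exact mul_le_of_le_one_right hε0.le hp1.le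
    have h2 : ‖(p : PadicAlgCl p) / s‖ = 1 := by rw [norm_div, hsn, div_self hp0.ne']
    have h3 : ∀ j, ‖τ ((σ ^ j) Y) / τ Y‖ = 1 := by
      intro j
      have h5 : ‖τ ((σ ^ j) Y) / τ Y‖ = ‖(1 : PadicAlgCl p)‖ := norm_eq_of_sub_lt (by
        rw [norm_one]; exact (hrat j).trans_lt hε1)
      rw [h5, norm_one]
    have h4 := prod_close (range p) (fun j => τ ((σ ^ j) Y) / τ Y * ((p : PadicAlgCl p) / s))
      (fun _ => 1) (ε := ε / ‖(p : PadicAlgCl p)‖) (hε0.le.trans hε')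
      (fun j _ => by rw [norm_mul, h2, h3, one_mul]) (fun _ _ => norm_one.le)
      (fun j _ => by
        have e3 : τ ((σ ^ j) Y) / τ Y * ((p : PadicAlgCl p) / s) - 1 =
            τ ((σ ^ j) Y) / τ Y * ((p : PadicAlgCl p) / s - 1) + (τ ((σ ^ j) Y) / τ Y - 1) := by
          ring
        rw [e3]
        refine (IsUltrametricDist.norm_add_le_max _ _).trans (max_le ?_ ((hrat j).trans hε'))
        rw [norm_mul, h3, one_mul]
        exact h1)
    rw [Finset.prod_const_one] at h4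
    exact h4.trans_lt hεε
  -- the end
  refine ⟨i * (p - 1), ?_⟩
  have hNc : Algebra.norm F (c : L) ≠ 0 := Algebra.norm_ne_zero_iff.2 hc0
  have e3 : Algebra.norm F y * d ^ (i * (p - 1)) =
      Algebra.norm F Y * ((Algebra.norm F (c : L))⁻¹ * d ^ i) ^ p := by
    rw [hY, map_mul, map_mul, map_pow, map_pow, Algebra.norm_inv, hS.norm_root hp2, mul_pow, inv_pow, inv_pow]
    have e4 : (d ^ i) ^ p = d ^ i * d ^ (i * (p - 1)) := by
      rw [← pow_mul, ← pow_add]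
      congr 1
      have : i * p = i * (p - 1 + 1) := by rw [Nat.sub_add_cancel hp.one_le]
      rw [this]
      ring
    rw [e4]
    have hdi : d ^ i ≠ 0 := pow_ne_zero _ hd0
    field_simp
  rw [e3]
  exact hB2 _ _ hLY (hB3 _ (mul_ne_zero (inv_ne_zero hNc) (pow_ne_zero _ hd0)))

end Pool.Agent.Q124.LS
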